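import Mathlib

/-! Retractions of a countable compact metric space onto finite subsets. -/

set_option autoImplicit false

open Filter Topology Set

namespace Pool.Agent.Helper509.CK

universe u

variable {K : Type u} [MetricSpace K] [CompactSpace K] [Countable K]

/-- A separating sequence of clopen sets. -/
lemma exists_clopen_seq (K : Type u) [MetricSpace K] [CompactSpace K] [Countable K] :
    ∃ C : ℕ → Set K, (∀ i, IsClopen (C i)) ∧ ∀ x y, x ≠ y → ∃ i, x ∈ C i ∧ y ∉ C i := by
  classical
  rcases isEmpty_or_nonempty K with hK | hK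
  · exact ⟨fun _ => ∅, fun _ => isClopen_empty, fun x => (hK.false x).elim⟩
  have h1 : ∀ p : K × K, ∃ U : Set K, IsClopen U ∧ (p.1 ≠ p.2 → p.1 ∈ U ∧ p.2 ∉ U) := by
    intro p
    by_cases hp : p.1 = p.2
    · exact ⟨∅, isClopen_empty, fun h => absurd hp h⟩
    · obtain ⟨U, hU, h1, h2⟩ := exists_isClopen_of_totally_separated hp
      exact ⟨U, hU, fun _ => ⟨h1, h2⟩⟩
  choose U hU hU2 using h1
  obtain ⟨e, he⟩ := exists_surjective_nat (K × K)
  refine ⟨fun i => U (e i), fun i => hU _, fun x y hxy => ?_⟩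
  obtain ⟨i, hi⟩ := he (x, y)
  refine ⟨i, ?_⟩
  have := hU2 (e i)
  rw [hi] at this
  simpa [hi] using this hxy

/-- Finite retractions of a countable compact metric space. -/
theorem exists_retractions (K : Type u) [MetricSpace K] [CompactSpace K] [Countable K]
    [Nonempty K] :
    ∃ s : ℕ → C(K, K), (∀ n, (Set.range (s n)).Finite) ∧ (∀ m n x, s m (s n x) = s (min m n) x) ∧
      (∀ x, ∀ᶠ n in atTop, s n x = x) ∧
      ∀ V : Set (K × K), IsOpen V → (∀ x, (x, x) ∈ V) → ∃ N, ∀ n, N ≤ n → ∀ x, (s n x, x) ∈ V := by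
  classical
  obtain ⟨C, hC, hsep⟩ := exists_clopen_seq K
  obtain ⟨e, he⟩ := exists_surjective_nat K
  let R : ℕ → K → K → Prop := fun n x y => ∀ i < n, (x ∈ C i ↔ y ∈ C i)
  have Rrefl : ∀ n x, R n x x := fun n x i _ => Iff.rfl
  have Rsymm : ∀ n x y, R n x y → R n y x := fun n x y h i hi => (h i hi).symm
  have Rtrans : ∀ n x y z, R n x y → R n y z → R n x z := fun n x y z h h' i hi =>
    (h i hi).trans (h' i hi)
  have Rmono : ∀ m n x y, m ≤ n → R n x y → R m x y := fun m n x y h h' i hi =>
    h' i (hi.trans_le h)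
  have Rex : ∀ n x, ∃ i, R n (e i) x := by
    intro n x
    obtain ⟨i, hi⟩ := he x
    exact ⟨i, by rw [hi]; exact Rrefl n x⟩
  let idx : ℕ → K → ℕ := fun n x => Nat.find (Rex n x)
  have hidx : ∀ n x, R n (e (idx n x)) x := fun n x => Nat.find_spec (Rex n x)
  have hidxle : ∀ n x i, R n (e i) x → idx n x ≤ i := fun n x i h => Nat.find_min' _ h
  have hidxeq : ∀ n x y, R n x y → idx n x = idx n y := by
    intro n x y h
    apply le_antisymm
    · exact hidxle _ _ _ (Rtrans _ _ _ _ (hidx n y) (Rsymm _ _ _ h))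
    · exact hidxle _ _ _ (Rtrans _ _ _ _ (hidx n x) h)
  -- openness of the relation
  have hopen : ∀ n, IsOpen {p : K × K | R n p.1 p.2} ∧ IsClosed {p : K × K | R n p.1 p.2} := by
    intro n
    have h1 : {p : K × K | R n p.1 p.2} = ⋂ i ∈ Finset.range n,
        {p : K × K | (p.1 ∈ C i ↔ p.2 ∈ C i)} := by
      ext p
      simp only [mem_iInter, Finset.mem_range, mem_ofPred_eq]
      rfl
    have h2 : ∀ i, IsClopen {p : K × K | (p.1 ∈ C i ↔ p.2 ∈ C i)} := by
      intro i
      have h3 : {p : K × K | (p.1 ∈ C i ↔ p.2 ∈ C i)} = (Prod.fst ⁻¹' C i ∩ Prod.snd ⁻¹' C i) ∪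
          ((Prod.fst ⁻¹' C i)ᶜ ∩ (Prod.snd ⁻¹' C i)ᶜ) := by
        ext p
        simp only [mem_union, mem_inter_iff, mem_compl_iff, mem_preimage, mem_ofPred_eq]
        tauto
      rw [h3]
      have h4 := (hC i).preimage (continuous_fst : Continuous (Prod.fst : K × K → K))
      have h5 := (hC i).preimage (continuous_snd : Continuous (Prod.snd : K × K → K))
      exact (h4.inter h5).union (h4.compl.inter h5.compl)
    rw [h1]
    exact ⟨isOpen_biInter_finset fun i _ => (h2 i).2, isClosed_biInter fun i _ => (h2 i).1⟩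
  have hlc : ∀ n, IsLocallyConstant (fun x => e (idx n x)) := by
    intro n
    rw [IsLocallyConstant.iff_exists_open]
    intro x
    refine ⟨{y | R n x y}, ?_, Rrefl n x, fun y hy => ?_⟩
    · exact (hopen n).1.preimage (continuous_const.prodMk continuous_id)
    · show e (idx n y) = e (idx n x)
      rw [hidxeq n x y hy]
  refine ⟨fun n => ⟨fun x => e (idx n x), (hlc n).continuous⟩, fun n => (hlc n).range_finite,
    ?_, ?_, ?_⟩
  · intro m n x
    show e (idx m (e (idx n x))) = e (idx (min m n) x)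
    rcases le_total m n with h | h
    · rw [min_eq_left h, hidxeq m _ _ (Rmono _ _ _ _ h (hidx n x))]
    · rw [min_eq_right h]
      congr 1
      apply le_antisymm
      · exact hidxle _ _ _ (Rrefl _ _)
      · refine hidxle _ _ _ ?_
        exact Rtrans _ _ _ _ (Rmono _ _ _ _ h (hidx m (e (idx n x)))) (hidx n x)
  · intro x
    have hx : ∃ i, e i = x := he x
    set i := Nat.find hx with hi
    have hi1 : e i = x := Nat.find_spec hx
    have hi2 : ∀ j < i, e j ≠ x := fun j hj => Nat.find_min hx hj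
    have h1 : ∀ j < i, ∃ k, ¬ (e j ∈ C k ↔ x ∈ C k) := by
      intro j hj
      obtain ⟨k, hk1, hk2⟩ := hsep _ _ (hi2 j hj)
      exact ⟨k, fun h => hk2 (h.1 hk1)⟩
    choose! k hk using h1
    filter_upwards [eventually_gt_atTop ((Finset.range i).sup k)] with n hn
    show e (idx n x) = x
    have h2 : idx n x = i := by
      apply le_antisymm
      · exact hidxle _ _ _ (by rw [hi1]; exact Rrefl n x)
      · by_contra hlt
        push Not at hlt
        have h3 := hidx n x
        refine hk _ hlt (h3 (k (idx n x)) (lt_of_le_of_lt ?_ hn))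
        exact Finset.le_sup (f := k) (Finset.mem_range.2 hlt)
    rw [h2, hi1]
  · intro V hV hdiag
    have h1 : ∃ n, (univ : Set (K × K)) ⊆ V ∪ {p : K × K | R n p.1 p.2}ᶜ := by
      refine isCompact_univ.elim_directed_cover _ (fun n => hV.union (hopen n).2.isOpen_compl) ?_ ?_
      · rintro ⟨x, y⟩ -
        rw [mem_iUnion]
        by_cases hxy : x = y
        · subst hxy
          exact ⟨0, Or.inl (hdiag x)⟩
        · obtain ⟨k, hk1, hk2⟩ := hsep _ _ hxy
          refine ⟨k + 1, Or.inr fun h => hk2 ((h k (Nat.lt_succ_self k)).1 hk1)⟩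
      · refine Monotone.directed_le ?_
        intro m n hmn
        refine union_subset_union_right _ (compl_subset_compl.2 ?_)
        rintro ⟨x, y⟩ h
        exact Rmono _ _ _ _ hmn h
    obtain ⟨N, hN⟩ := h1
    refine ⟨N, fun n hn x => ?_⟩
    rcases hN (mem_univ (e (idx n x), x)) with h | h
    · exact h
    · exact absurd (Rmono _ _ _ _ hn (hidx n x)) h

end Pool.Agent.Helper509.CK
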