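import Pool.Agent.H731R2.Riesz

/-! Bounded pointwise null sequences in `C(K, 𝕜)` are weakly null. -/

set_option autoImplicit false

open Filter Topology MeasureTheory

namespace Pool.Agent.Helper509.CK

universe u

variable {K : Type u} [TopologicalSpace K] [CompactSpace K] [T2Space K]

lemma real_dominated [MeasurableSpace K] [BorelSpace K] (f : C(K, ℝ) →L[ℝ] ℝ) :
    ∃ μ : Measure K, IsFiniteMeasure μ ∧ ∀ g : C(K, ℝ), |f g| ≤ ∫ x, |g x| ∂μ := by
  let r : C(K, ℂ) →L[ℝ] C(K, ℝ) := Complex.reCLM.compLeftContinuous ℝ K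
  let F : StrongDual ℂ C(K, ℂ) := StrongDual.extendRCLike (f.comp r)
  obtain ⟨μ, h1, -, h3⟩ := Pool.Agent.H731R2.exists_dominating_measure F
  refine ⟨μ, h1, fun g => ?_⟩
  let h : C(K, ℂ) := ⟨fun x => (g x : ℂ), by fun_prop⟩
  have h4 : r h = g := by
    ext x
    simp [r, h]
  have h5 : (F h).re = f g := by
    have h6 : F h = ((f (r h) : ℝ) : ℂ) - Complex.I * ((f (r (Complex.I • h)) : ℝ) : ℂ) := by
      simp only [F]
      rw [StrongDual.extendRCLike_apply]
      rfl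
    rw [h6, h4]
    simp
  calc |f g| = |(F h).re| := by rw [h5]
    _ ≤ ‖F h‖ := Complex.abs_re_le_norm _
    _ ≤ ∫ x, ‖h x‖ ∂μ := h3 h
    _ = ∫ x, |g x| ∂μ := by
      congr 1
      ext x
      simp [h]

lemma tendsto_real (f : C(K, ℝ) →L[ℝ] ℝ) (ψ : ℕ → C(K, ℝ)) (M : ℝ) (hM : ∀ n x, |ψ n x| ≤ M)
    (hψ : ∀ x, Tendsto (fun n => ψ n x) atTop (𝓝 0)) :
    Tendsto (fun n => f (ψ n)) atTop (𝓝 0) := by
  let _ : MeasurableSpace K := borel K
  have _ : BorelSpace K := ⟨rfl⟩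
  obtain ⟨μ, hμ, h1⟩ := real_dominated f
  have h2 : Tendsto (fun n => ∫ x, |ψ n x| ∂μ) atTop (𝓝 (∫ _, (0 : ℝ) ∂μ)) := by
    refine tendsto_integral_of_dominated_convergence (fun _ => M) ?_ (integrable_const M) ?_ ?_
    · intro n
      have : Continuous fun x => |ψ n x| := by fun_prop
      exact this.measurable.aestronglyMeasurable
    · intro n
      refine ae_of_all _ fun x => ?_
      rw [Real.norm_eq_abs, abs_abs]
      exact hM n x
    · refine ae_of_all _ fun x => ?_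
      have := (hψ x).abs
      simpa using this
  rw [integral_zero] at h2
  rw [tendsto_zero_iff_abs_tendsto_zero]
  exact squeeze_zero (fun n => abs_nonneg _) (fun n => h1 _) h2

/-- Bounded pointwise null sequences in `C(K, 𝕜)` are weakly null. -/
theorem tendsto_weak {𝕜 : Type} [RCLike 𝕜] (f : C(K, 𝕜) →L[𝕜] 𝕜) (ψ : ℕ → C(K, 𝕜)) (M : ℝ)
    (hM : ∀ n x, ‖ψ n x‖ ≤ M) (hψ : ∀ x, Tendsto (fun n => ψ n x) atTop (𝓝 0)) :
    Tendsto (fun n => f (ψ n)) atTop (𝓝 0) := by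
  let r : C(K, 𝕜) →L[ℝ] C(K, ℝ) := RCLike.reCLM.compLeftContinuous ℝ K
  let i : C(K, 𝕜) →L[ℝ] C(K, ℝ) := RCLike.imCLM.compLeftContinuous ℝ K
  let c : C(K, ℝ) →L[ℝ] C(K, 𝕜) := RCLike.ofRealCLM.compLeftContinuous ℝ K
  have hr : ∀ φ x, r φ x = RCLike.re (φ x) := fun φ x => rfl
  have hi : ∀ φ x, i φ x = RCLike.im (φ x) := fun φ x => rfl
  have hc : ∀ φ x, c φ x = (φ x : 𝕜) := fun φ x => rfl
  have hdec : ∀ φ, φ = c (r φ) + (RCLike.I : 𝕜) • c (i φ) := by
    intro φ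
    ext x
    rw [ContinuousMap.add_apply, ContinuousMap.smul_apply, hc, hc, hr, hi, smul_eq_mul, mul_comm]
    exact (RCLike.re_add_im (φ x)).symm
  let g : C(K, ℝ) →L[ℝ] 𝕜 := (f.restrictScalars ℝ).comp c
  have key : ∀ η : ℕ → C(K, ℝ), (∀ n x, |η n x| ≤ M) →
      (∀ x, Tendsto (fun n => η n x) atTop (𝓝 0)) → Tendsto (fun n => f (c (η n))) atTop (𝓝 0) := by
    intro η h1 h2
    have h3 := tendsto_real (RCLike.reCLM.comp g) η M h1 h2
    have h4 := tendsto_real (RCLike.imCLM.comp g) η M h1 h2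
    have h5 : ∀ n, f (c (η n)) = ((RCLike.reCLM.comp g) (η n) : 𝕜) +
        ((RCLike.imCLM.comp g) (η n) : 𝕜) * RCLike.I := fun n =>
      (RCLike.re_add_im (f (c (η n)))).symm
    simp only [h5]
    have h6 : Tendsto (fun n => ((RCLike.reCLM.comp g) (η n) : 𝕜)) atTop (𝓝 ((0 : ℝ) : 𝕜)) :=
      (RCLike.continuous_ofReal.tendsto 0).comp h3
    have h7 : Tendsto (fun n => ((RCLike.imCLM.comp g) (η n) : 𝕜)) atTop (𝓝 ((0 : ℝ) : 𝕜)) :=
      (RCLike.continuous_ofReal.tendsto 0).comp h4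
    have h8 := h6.add (h7.mul_const (RCLike.I : 𝕜))
    simpa using h8
  have h1 := key (fun n => r (ψ n)) (fun n x => by
      rw [hr]; exact (RCLike.abs_re_le_norm _).trans (hM n x)) (fun x => by
      simp only [hr]
      have := (RCLike.continuous_re.tendsto (0 : 𝕜)).comp (hψ x)
      simpa [Function.comp_def] using this)
  have h2 := key (fun n => i (ψ n)) (fun n x => by
      rw [hi]; exact (RCLike.abs_im_le_norm _).trans (hM n x)) (fun x => by
      simp only [hi]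
      have := (RCLike.continuous_im.tendsto (0 : 𝕜)).comp (hψ x)
      simpa [Function.comp_def] using this)
  have h3 : ∀ n, f (ψ n) = f (c (r (ψ n))) + RCLike.I * f (c (i (ψ n))) := by
    intro n
    conv_lhs => rw [hdec (ψ n)]
    rw [map_add, map_smul, smul_eq_mul]
  simp only [h3]
  have h4 := h1.add (h2.const_mul (RCLike.I : 𝕜))
  simpa using h4

end Pool.Agent.Helper509.CK
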