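import Pool.Agent.Helper509.CK.KX
import Pool.Agent.Helper509.CK.Retract
import Pool.Agent.Helper509.CK.WeakNull

/-! The unitization of `K(C(K))`, `K` a countable compact metric space, is a Calkin algebra. -/

set_option autoImplicit false

open Filter Topology

namespace Pool.Agent.Helper509.CK

universe u

open Pool.Agent.R184CA

/-- composition with a continuous map -/
noncomputable def compOp (𝕜 : Type) [RCLike 𝕜] {K : Type u} [TopologicalSpace K] [CompactSpace K]
    (s : C(K, K)) : C(K, 𝕜) →L[𝕜] C(K, 𝕜) :=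
  LinearMap.mkContinuous
    { toFun := fun φ => φ.comp s
      map_add' := fun φ ψ => rfl
      map_smul' := fun c φ => rfl } 1 (by
    intro φ
    rw [one_mul, ContinuousMap.norm_le _ (norm_nonneg _)]
    exact fun x => φ.norm_coe_le_norm (s x))

lemma compOp_apply (𝕜 : Type) [RCLike 𝕜] {K : Type u} [TopologicalSpace K] [CompactSpace K]
    (s : C(K, K)) (φ : C(K, 𝕜)) (x : K) : compOp 𝕜 s φ x = φ (s x) := rfl

lemma norm_compOp_le (𝕜 : Type) [RCLike 𝕜] {K : Type u} [TopologicalSpace K] [CompactSpace K]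
    (s : C(K, K)) : ‖compOp 𝕜 s‖ ≤ 1 :=
  LinearMap.mkContinuous_norm_le _ zero_le_one _

theorem calkin_KCK (𝕜 : Type) [RCLike 𝕜] (K : Type u) [MetricSpace K] [CompactSpace K]
    [Countable K] : IsCalkin 𝕜 (WithLp 1 (Unitization 𝕜 (KK 𝕜 C(K, 𝕜)))) := by
  rcases isEmpty_or_nonempty K with hK | hK
  · -- the trivial case
    have hsub : Subsingleton C(K, 𝕜) := ⟨fun φ ψ => by ext x; exact (hK.false x).elim⟩
    have hfd : FiniteDimensional 𝕜 C(K, 𝕜) := inferInstance
    refine calkin_KX (fun _ => ContinuousLinearMap.id 𝕜 _) 1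
      (fun _ => ContinuousLinearMap.norm_id_le) (fun _ _ _ => rfl) (fun _ => inferInstance)
      (fun _ => tendsto_const_nhds) (fun f => ?_)
    have : ∀ n : ℕ, f.comp (ContinuousLinearMap.id 𝕜 C(K, 𝕜)) = f := fun n => by ext; rfl
    simp only [ContinuousLinearMap.comp_id]
    exact tendsto_const_nhds
  obtain ⟨s, hfin, hss, hev, hunif⟩ := exists_retractions K
  refine calkin_KX (fun n => compOp 𝕜 (s n)) 1 (fun n => norm_compOp_le 𝕜 (s n)) ?_ ?_ ?_ ?_
  · intro m n φ
    ext x
    simp only [compOp_apply]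
    rw [hss, min_comm]
  · intro n
    have : Finite (Set.range (s n)) := hfin n
    let R : LinearMap.range (compOp 𝕜 (s n) : C(K, 𝕜) →ₗ[𝕜] C(K, 𝕜)) →ₗ[𝕜]
        (Set.range (s n) → 𝕜) :=
      { toFun := fun ψ y => ψ.1 y.1
        map_add' := fun ψ ψ' => rfl
        map_smul' := fun c ψ => rfl }
    refine Module.Finite.of_injective R ?_
    rintro ⟨ψ, φ, h⟩ ⟨ψ', φ', h'⟩ hR
    apply Subtype.ext
    ext x
    have h1 : ∀ x, ψ x = ψ (s n x) := by
      intro x
      rw [← h]
      show φ (s n x) = φ (s n (s n x))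
      rw [hss, min_self]
    have h2 : ∀ x, ψ' x = ψ' (s n x) := by
      intro x
      rw [← h']
      show φ' (s n x) = φ' (s n (s n x))
      rw [hss, min_self]
    show ψ x = ψ' x
    rw [h1, h2]
    exact congrFun hR ⟨s n x, x, rfl⟩
  · intro φ
    rw [Metric.tendsto_atTop]
    intro ε hε
    obtain ⟨N, hN⟩ := hunif {p | dist (φ p.1) (φ p.2) < ε / 2}
      (isOpen_lt (by fun_prop) continuous_const) (fun x => by simp [hε])
    refine ⟨N, fun n hn => ?_⟩
    rw [dist_eq_norm]
    refine lt_of_le_of_lt ?_ (half_lt_self hε)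
    rw [ContinuousMap.norm_le _ (by positivity)]
    intro x
    have := hN n hn x
    rw [Set.mem_ofPred_eq] at this
    rw [ContinuousMap.sub_apply, compOp_apply, ← dist_eq_norm]
    exact this.le
  · intro f
    have h1 : ∀ n, ∃ φ : C(K, 𝕜), ‖φ‖ ≤ 1 ∧
        ‖f.comp (compOp 𝕜 (s n)) - f‖ ≤ 2 * ‖(f.comp (compOp 𝕜 (s n)) - f) φ‖ := by
      intro n
      rcases eq_or_lt_of_le (norm_nonneg (f.comp (compOp 𝕜 (s n)) - f)) with h | h
      · exact ⟨0, by simp, by rw [← h]; positivity⟩
      · obtain ⟨φ, h2, h3⟩ := ContinuousLinearMap.exists_lt_apply_of_lt_opNorm _ (half_lt_self h)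
        exact ⟨φ, h2.le, by linarith⟩
    choose φ hφ1 hφ2 using h1
    have h2 := tendsto_weak f (fun n => compOp 𝕜 (s n) (φ n) - φ n) 2 (by
      intro n x
      rw [ContinuousMap.sub_apply, compOp_apply]
      refine (norm_sub_le _ _).trans ?_
      have h3 := (φ n).norm_coe_le_norm x
      have h4 := (φ n).norm_coe_le_norm (s n x)
      have h5 := hφ1 n
      linarith) (by
      intro x
      refine tendsto_const_nhds.congr' ?_
      filter_upwards [hev x] with n hn
      rw [ContinuousMap.sub_apply, compOp_apply, hn, sub_self])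
    rw [tendsto_iff_norm_sub_tendsto_zero]
    refine squeeze_zero (fun n => norm_nonneg _) (fun n => hφ2 n) ?_
    have h3 := h2.norm.const_mul 2
    rw [norm_zero, mul_zero] at h3
    refine h3.congr fun n => ?_
    rw [map_sub]
    rfl

end Pool.Agent.Helper509.CK
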