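import Mathlib

/-! The algebra of compact operators. -/

set_option autoImplicit false

namespace Pool.Agent.Helper509.CK

universe u

/-- The algebra `K(X)` of the compact operators on `X`, with the operator norm. -/
def KK (𝕜 : Type) [RCLike 𝕜] (X : Type u) [NormedAddCommGroup X] [NormedSpace 𝕜 X] :
    NonUnitalSubalgebra 𝕜 (X →L[𝕜] X) where
  carrier := {T | IsCompactOperator T}
  add_mem' := fun hS hT => hS.add hT
  zero_mem' := isCompactOperator_zero
  mul_mem' := fun {_ T} hS _ => hS.comp_clm T
  smul_mem' := fun c _ hT => hT.smul c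

noncomputable instance (𝕜 : Type) [RCLike 𝕜] (X : Type u) [NormedAddCommGroup X]
    [NormedSpace 𝕜 X] : NormedSpace 𝕜 (KK 𝕜 X) where
  norm_smul_le c T := norm_smul_le c (T : X →L[𝕜] X)

end Pool.Agent.Helper509.CK
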