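import Pool.Agent.R184CA.UnitRing
import Pool.Agent.Helper509.CK.Def

/-! The unitization of `K(X)` is a Calkin algebra if `X` has a shrinking finite dimensional
decomposition. -/

set_option autoImplicit false

open Filter Topology

namespace Pool.Agent.Helper509.CK

universe u

section defs

variable (𝕜 : Type) [RCLike 𝕜] (X : Type u) [NormedAddCommGroup X] [NormedSpace 𝕜 X]

lemma isClosed_KK [CompleteSpace X] : IsClosed (KK 𝕜 X : Set (X →L[𝕜] X)) :=
  isClosed_setOfPred_isCompactOperator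

instance [CompleteSpace X] : CompleteSpace (KK 𝕜 X) := (isClosed_KK 𝕜 X).completeSpace_coe

end defs

section main

variable {𝕜 : Type} [RCLike 𝕜] {X : Type u} [NormedAddCommGroup X] [NormedSpace 𝕜 X]
  [CompleteSpace X]

/-- Strong convergence is uniform on compact operators. -/
lemma tendsto_comp_compact {q : ℕ → X →L[𝕜] X} {C : ℝ} (hC : ∀ n, ‖q n‖ ≤ C)
    (hlim : ∀ x, Tendsto (fun n => q n x) atTop (𝓝 x)) {T : X →L[𝕜] X}
    (hT : IsCompactOperator T) : Tendsto (fun n => q n * T) atTop (𝓝 T) := by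
  have hC0 : 0 ≤ C := (norm_nonneg _).trans (hC 0)
  rw [Metric.tendsto_nhds]
  intro ε hε
  have hcomp : TotallyBounded (T '' Metric.closedBall 0 1) :=
    (hT.isCompact_closure_image_closedBall 1).totallyBounded.subset subset_closure
  obtain ⟨t, htf, ht⟩ := Metric.totallyBounded_iff.1 hcomp (ε / (2 * (C + 2))) (by positivity)
  have h2 : ∀ᶠ n in (atTop : Filter ℕ), ∀ z ∈ t, dist (q n z) z < ε / 4 := by
    rw [Filter.eventually_all_finite htf]
    intro z _
    exact Metric.tendsto_nhds.1 (hlim z) _ (by positivity)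
  filter_upwards [h2] with n hn
  rw [dist_eq_norm]
  have h4 : ‖q n * T - T‖ ≤ 3 / 4 * ε := by
    refine ContinuousLinearMap.opNorm_le_of_unit_norm (by positivity) fun x hx => ?_
    have hx1 : T x ∈ T '' Metric.closedBall 0 1 := ⟨x, by simp [hx], rfl⟩
    obtain ⟨z, hz, hxz⟩ := Set.mem_iUnion₂.1 (ht hx1)
    rw [Metric.mem_ball, dist_eq_norm] at hxz
    have h5 := hn z hz
    rw [dist_eq_norm] at h5
    have h6 : (q n * T - T) x = q n (T x - z) + (q n z - z) + (z - T x) := by
      rw [map_sub]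
      show q n (T x) - T x = _
      abel
    rw [h6]
    have h7 : ‖q n (T x - z)‖ ≤ C * ‖T x - z‖ :=
      ((q n).le_opNorm _).trans (mul_le_mul_of_nonneg_right (hC n) (norm_nonneg _))
    have h10 : ‖z - T x‖ = ‖T x - z‖ := norm_sub_rev _ _
    have h11 := norm_add_le (q n (T x - z) + (q n z - z)) (z - T x)
    have h12 := norm_add_le (q n (T x - z)) (q n z - z)
    have h13 : (C + 1) * ‖T x - z‖ ≤ ε / 2 := by
      have h14 : (C + 1) * ‖T x - z‖ ≤ (C + 2) * (ε / (2 * (C + 2))) :=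
        mul_le_mul (by linarith) hxz.le (norm_nonneg _) (by positivity)
      have h15 : (C + 2) * (ε / (2 * (C + 2))) = ε / 2 := by field_simp
      linarith
    linarith
  linarith

/-- a finite rank operator composed with `q n` -/
lemma tendsto_finrank {q : ℕ → X →L[𝕜] X}
    (hlim' : ∀ f : X →L[𝕜] 𝕜, Tendsto (fun n => f.comp (q n)) atTop (𝓝 f)) {F : X →L[𝕜] X}
    (hF : FiniteDimensional 𝕜 (LinearMap.range (F : X →ₗ[𝕜] X))) :
    Tendsto (fun n => F * q n) atTop (𝓝 F) := by
  set W := LinearMap.range (F : X →ₗ[𝕜] X) with hW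
  let b := Module.finBasis 𝕜 W
  let F' : X →L[𝕜] W := F.codRestrict W fun x => LinearMap.mem_range_self _ x
  let c : Fin (Module.finrank 𝕜 W) → X →L[𝕜] 𝕜 := fun i =>
    (LinearMap.toContinuousLinearMap (b.coord i)).comp F'
  have hFs : ∀ x, F x = ∑ i, c i x • (b i : X) := by
    intro x
    have h1 := b.sum_repr (F' x)
    have h2 := congrArg (Subtype.val : W → X) h1
    rw [Submodule.coe_sum] at h2
    exact h2.symm
  have hF1 : F = ∑ i, (c i).smulRight (b i : X) := by
    ext x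
    rw [hFs, sum_apply]
    rfl
  have hF2 : ∀ n, F * q n = ∑ i, ((c i).comp (q n)).smulRight (b i : X) := by
    intro n
    ext x
    rw [sum_apply]
    show F (q n x) = _
    rw [hFs]
    rfl
  simp only [hF2]
  conv_rhs => rw [hF1]
  refine tendsto_finsetSum _ fun i _ => ?_
  have h1 : Continuous fun f : X →L[𝕜] 𝕜 => f.smulRight (b i : X) :=
    (ContinuousLinearMap.smulRightL 𝕜 X X).flip (b i : X) |>.continuous
  exact (h1.tendsto _).comp (hlim' (c i))

theorem calkin_KX (q : ℕ → X →L[𝕜] X) (C : ℝ) (hC : ∀ n, ‖q n‖ ≤ C)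
    (hq : ∀ m n x, q m (q n x) = q (min m n) x)
    (hfin : ∀ n, FiniteDimensional 𝕜 (LinearMap.range (q n : X →ₗ[𝕜] X)))
    (hlim : ∀ x, Tendsto (fun n => q n x) atTop (𝓝 x))
    (hlim' : ∀ f : X →L[𝕜] 𝕜, Tendsto (fun n => f.comp (q n)) atTop (𝓝 f)) :
    Pool.Agent.R184CA.IsCalkin 𝕜 (WithLp 1 (Unitization 𝕜 (KK 𝕜 X))) := by
  have hC0 : 0 ≤ C := (norm_nonneg _).trans (hC 0)
  have hqq : ∀ m n, q m * q n = q (min m n) := fun m n => by ext x; exact hq m n x
  -- the projections
  let p0 : ℕ → KK 𝕜 X →ₗ[𝕜] KK 𝕜 X := fun n =>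
    { toFun := fun T => ⟨q n * T.1 * q n, (T.2.clm_comp (q n)).comp_clm (q n)⟩
      map_add' := fun S T => by
        apply Subtype.ext
        show q n * (S.1 + T.1) * q n = q n * S.1 * q n + q n * T.1 * q n
        rw [mul_add, add_mul]
      map_smul' := fun c T => by
        apply Subtype.ext
        show q n * (c • T.1) * q n = c • (q n * T.1 * q n)
        rw [mul_smul_comm, smul_mul_assoc] }
  have hp0 : ∀ n T, ‖p0 n T‖ ≤ C * C * ‖T‖ := by
    intro n T
    show ‖q n * T.1 * q n‖ ≤ C * C * ‖T.1‖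
    calc ‖q n * T.1 * q n‖ ≤ ‖q n‖ * ‖T.1‖ * ‖q n‖ :=
          (norm_mul_le _ _).trans (mul_le_mul_of_nonneg_right (norm_mul_le _ _) (norm_nonneg _))
      _ ≤ C * ‖T.1‖ * C := by
          have := hC n
          gcongr
      _ = C * C * ‖T.1‖ := by ring
  let p : ℕ → KK 𝕜 X →L[𝕜] KK 𝕜 X := fun n => (p0 n).mkContinuous (C * C) (hp0 n)
  have hp : ∀ n (T : KK 𝕜 X), (p n T : X →L[𝕜] X) = q n * T.1 * q n := fun n T => rfl
  refine Pool.Agent.R184CA.isCalkin_unitization p (C * C)
    (fun n => LinearMap.mkContinuous_norm_le _ (by positivity) _) ?_ ?_ ?_ ?_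
  · intro m n T
    apply Subtype.ext
    rw [hp, hp, hp]
    calc q m * (q n * T.1 * q n) * q m = (q m * q n) * T.1 * (q n * q m) := by
          simp only [mul_assoc]
      _ = _ := by rw [hqq, hqq, min_comm n m]
  · intro n
    -- the range of `p n` embeds in `End (range (q n))`
    have := hfin n
    set W := LinearMap.range (q n : X →ₗ[𝕜] X) with hW
    let R : LinearMap.range (p n : KK 𝕜 X →ₗ[𝕜] KK 𝕜 X) →ₗ[𝕜] (W →ₗ[𝕜] X) :=
      { toFun := fun S => (S.1.1 : X →ₗ[𝕜] X).comp W.subtype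
        map_add' := fun S T => rfl
        map_smul' := fun c S => rfl }
    have hR : ∀ S : LinearMap.range (p n : KK 𝕜 X →ₗ[𝕜] KK 𝕜 X), ∀ w, R S w ∈ W := by
      rintro ⟨S, T, hT⟩ w
      have h1 : (S : X →L[𝕜] X) = q n * T.1 * q n := by rw [← hT]; rfl
      refine ⟨T.1 (q n w), ?_⟩
      show q n (T.1 (q n w)) = S.1 w
      rw [h1]; rfl
    let R' : LinearMap.range (p n : KK 𝕜 X →ₗ[𝕜] KK 𝕜 X) →ₗ[𝕜] (W →ₗ[𝕜] W) :=
      { toFun := fun S => (R S).codRestrict W (hR S)
        map_add' := fun S T => by ext w; rfl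
        map_smul' := fun c S => by ext w; rfl }
    refine Module.Finite.of_injective R' ?_
    rintro ⟨S, T, hT⟩ ⟨S', T', hT'⟩ h
    have h1 : (S : X →L[𝕜] X) = q n * T.1 * q n := by rw [← hT]; rfl
    have h1' : (S' : X →L[𝕜] X) = q n * T'.1 * q n := by rw [← hT']; rfl
    apply Subtype.ext
    apply Subtype.ext
    ext x
    have h2 := congrArg (Subtype.val : W → X)
      (LinearMap.congr_fun h (⟨q n x, LinearMap.mem_range_self _ x⟩ : W))
    have h3 : S.1 (q n x) = S'.1 (q n x) := h2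
    have h4 : S.1 (q n x) = S.1 x := by
      rw [h1]
      show q n (T.1 (q n (q n x))) = q n (T.1 (q n x))
      rw [hq, min_self]
    have h4' : S'.1 (q n x) = S'.1 x := by
      rw [h1']
      show q n (T'.1 (q n (q n x))) = q n (T'.1 (q n x))
      rw [hq, min_self]
    show S.1 x = S'.1 x
    rw [← h4, h3, h4']
  · intro T
    rw [tendsto_subtype_rng]
    show Tendsto (fun n => q n * T.1 * q n) atTop (𝓝 T.1)
    have h1 := tendsto_comp_compact hC hlim T.2
    rw [Metric.tendsto_nhds]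
    intro ε hε
    obtain ⟨m, hm⟩ := (Metric.tendsto_nhds.1 h1 (ε / (2 * (C * C + 2))) (by positivity)).exists
    rw [dist_eq_norm] at hm
    have hFfin : FiniteDimensional 𝕜 (LinearMap.range (q m * T.1 : X →ₗ[𝕜] X)) := by
      have := hfin m
      refine Submodule.finiteDimensional_of_le (S₂ := LinearMap.range (q m : X →ₗ[𝕜] X)) ?_
      rintro _ ⟨x, rfl⟩
      exact ⟨T.1 x, rfl⟩
    have h2 := tendsto_finrank (F := q m * T.1) hlim' hFfin
    filter_upwards [Metric.tendsto_nhds.1 h2 (ε / 2) (by positivity), eventually_ge_atTop m]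
      with n hn hmn
    rw [dist_eq_norm] at hn ⊢
    have h3 : q n * (q m * T.1) = q m * T.1 := by
      rw [← mul_assoc, hqq, min_eq_right hmn]
    have h4 : q n * T.1 * q n - T.1 = q n * (T.1 - q m * T.1) * q n + (q m * T.1 * q n - q m * T.1) +
        (q m * T.1 - T.1) := by
      rw [mul_sub, sub_mul, h3]
      abel
    rw [h4]
    have h5 : ‖q n * (T.1 - q m * T.1) * q n‖ ≤ C * C * ‖q m * T.1 - T.1‖ := by
      rw [norm_sub_rev (q m * T.1)]
      calc ‖q n * (T.1 - q m * T.1) * q n‖ ≤ ‖q n‖ * ‖T.1 - q m * T.1‖ * ‖q n‖ :=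
            (norm_mul_le _ _).trans (mul_le_mul_of_nonneg_right (norm_mul_le _ _) (norm_nonneg _))
        _ ≤ C * ‖T.1 - q m * T.1‖ * C := by
            have := hC n
            gcongr
        _ = C * C * ‖T.1 - q m * T.1‖ := by ring
    have h6 := norm_add_le (q n * (T.1 - q m * T.1) * q n + (q m * T.1 * q n - q m * T.1))
      (q m * T.1 - T.1)
    have h7 := norm_add_le (q n * (T.1 - q m * T.1) * q n) (q m * T.1 * q n - q m * T.1)
    have h8 : (C * C + 1) * ‖q m * T.1 - T.1‖ < ε / 2 := by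
      have h9 : (C * C + 1) * ‖q m * T.1 - T.1‖ < (C * C + 2) * (ε / (2 * (C * C + 2))) :=
        mul_lt_mul'' (by linarith) hm (by positivity) (norm_nonneg _)
      have h10 : (C * C + 2) * (ε / (2 * (C * C + 2))) = ε / 2 := by field_simp
      linarith
    linarith
  · intro n S T
    apply Subtype.ext
    show q n * ((q n * S.1 * q n) * (q n * T.1 * q n)) * q n =
      (q n * S.1 * q n) * (q n * T.1 * q n)
    have h1 : ∀ x, q n * (q n * x) = q n * x := fun x => by rw [← mul_assoc, hqq, min_self]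
    have h2 : q n * q n = q n := by rw [hqq, min_self]
    simp only [mul_assoc, h1, h2]

end main

end Pool.Agent.Helper509.CK
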