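import Pool.Agent.R184CA.Unit
import Pool.Agent.Helper509.CK.Def

/-! The unitization of `K(E)` as a space of pairs. -/

set_option autoImplicit false

namespace Pool.Agent.Helper509.CK

universe u

open Pool.Agent.R184CA

/-- transport of a Calkin algebra along a linear isomorphism -/
theorem isCalkinMul_transport {𝕜 : Type} [RCLike 𝕜] {A : Type u} [NormedRing A]
    [NormedAlgebra 𝕜 A] (h : IsCalkin 𝕜 A) {B : Type u} [NormedAddCommGroup B] [NormedSpace 𝕜 B]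
    (m : B → B → B) (t : A ≃ₗ[𝕜] B) (c : ℝ) (h1 : ∀ x, ‖t x‖ ≤ c * ‖x‖)
    (h2 : ∀ x, ‖x‖ ≤ c * ‖t x‖) (h3 : ∀ x y, t (x * y) = m (t x) (t y)) :
    IsCalkinMul 𝕜 B m := by
  obtain ⟨X, i1, i2, i3, e, ⟨C, hC⟩, ⟨D, hD⟩⟩ := h
  refine ⟨X, i1, i2, i3, e.toLinearEquiv.trans t, ?_, ⟨max c 0 * C, fun x => ?_⟩,
    ⟨max D 0 * c, fun y => ?_⟩⟩
  · intro S T
    show t (e (S * T)) = m (t (e S)) (t (e T))
    rw [map_mul, h3]
  · show ‖t (e x)‖ ≤ _
    calc ‖t (e x)‖ ≤ c * ‖e x‖ := h1 _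
      _ ≤ max c 0 * ‖e x‖ := mul_le_mul_of_nonneg_right (le_max_left _ _) (norm_nonneg _)
      _ ≤ max c 0 * (C * ‖x‖) := mul_le_mul_of_nonneg_left (hC x) (le_max_right _ _)
      _ = _ := by ring
  · show ‖e.symm (t.symm y)‖ ≤ _
    calc ‖e.symm (t.symm y)‖ ≤ D * ‖t.symm y‖ := hD _
      _ ≤ max D 0 * ‖t.symm y‖ := mul_le_mul_of_nonneg_right (le_max_left _ _) (norm_nonneg _)
      _ ≤ max D 0 * (c * ‖t (t.symm y)‖) := mul_le_mul_of_nonneg_left (h2 _) (le_max_right _ _)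
      _ = _ := by rw [LinearEquiv.apply_symm_apply]; ring

variable (𝕜 : Type) [RCLike 𝕜] (E : Type u) [NormedAddCommGroup E] [NormedSpace 𝕜 E]

/-- The product (composition) of two compact operators. -/
def kmul (S T : compactOperator (RingHom.id 𝕜) E E) : compactOperator (RingHom.id 𝕜) E E :=
  ⟨(S : E →L[𝕜] E).comp (T : E →L[𝕜] E), IsCompactOperator.comp_clm S.2 _⟩

/-- The unitization of the algebra `K(E)` of the compact operators on `E`, which is the Banach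
space `K(E) × 𝕜` with the product `(S, a)(T, b) = (ST + aT + bS, ab)`, is a Calkin algebra. -/
def UnitizedCompactIsCalkin : Prop :=
  IsCalkinMul 𝕜 (compactOperator (RingHom.id 𝕜) E E × 𝕜) (unitMul (kmul 𝕜 E))

variable {𝕜 E}

theorem unitized_of_isCalkin (h : IsCalkin 𝕜 (WithLp 1 (Unitization 𝕜 (KK 𝕜 E)))) :
    UnitizedCompactIsCalkin 𝕜 E := by
  let t : WithLp 1 (Unitization 𝕜 (KK 𝕜 E)) ≃ₗ[𝕜] compactOperator (RingHom.id 𝕜) E E × 𝕜 :=
    { toFun := fun x => (⟨x.ofLp.snd.1, x.ofLp.snd.2⟩, x.ofLp.fst)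
      invFun := fun y => WithLp.toLp 1 (Unitization.inl y.2 + Unitization.inr ⟨y.1.1, y.1.2⟩)
      left_inv := fun x => by
        apply WithLp.ofLp_injective 1
        ext <;> simp
      right_inv := fun y => by
        ext <;> simp
      map_add' := fun x y => Prod.ext (Subtype.ext rfl) rfl
      map_smul' := fun c x => Prod.ext (Subtype.ext rfl) rfl }
  have hn : ∀ x : WithLp 1 (Unitization 𝕜 (KK 𝕜 E)), ‖x‖ = ‖x.ofLp.fst‖ + ‖x.ofLp.snd‖ :=
    fun x => WithLp.unitization_norm_def x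
  have hn' : ∀ x, ‖t x‖ = max ‖x.ofLp.snd‖ ‖x.ofLp.fst‖ := fun x => rfl
  refine isCalkinMul_transport h _ t 2 (fun x => ?_) (fun x => ?_) (fun x y => ?_)
  · rw [hn, hn']
    have h1 := norm_nonneg x.ofLp.snd
    have h2 := norm_nonneg x.ofLp.fst
    exact max_le (by linarith) (by linarith)
  · rw [hn, hn']
    linarith [le_max_left ‖x.ofLp.snd‖ ‖x.ofLp.fst‖, le_max_right ‖x.ofLp.snd‖ ‖x.ofLp.fst‖]
  · have h1 : (x * y).ofLp = x.ofLp * y.ofLp := rfl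
    refine Prod.ext (Subtype.ext ?_) ?_
    · show ((x * y).ofLp.snd : E →L[𝕜] E) = _
      rw [h1, Unitization.snd_mul]
      show (x.ofLp.fst • (y.ofLp.snd : E →L[𝕜] E) + y.ofLp.fst • (x.ofLp.snd : E →L[𝕜] E) +
        (x.ofLp.snd : E →L[𝕜] E) * (y.ofLp.snd : E →L[𝕜] E)) =
        (x.ofLp.snd : E →L[𝕜] E) * (y.ofLp.snd : E →L[𝕜] E) +
        x.ofLp.fst • (y.ofLp.snd : E →L[𝕜] E) + y.ofLp.fst • (x.ofLp.snd : E →L[𝕜] E)
      abel
    · show (x * y).ofLp.fst = _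
      rw [h1, Unitization.fst_mul]
      rfl

end Pool.Agent.Helper509.CK
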